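import Pool.Agent.P.MP_ebce6b_al.Final

open Pool.Agent.P.MP_ebce6b_al

/-- Over a ring of operators containing the rationals, a product of `L` elements of `A`, of which
`T.card` are equal to one element `c`, lies in the span of the `n`-th powers of elements of `A`
as soon as `L + T.card ≥ n ^ 2`. Products and powers are taken in the unitization of `A`. -/
theorem Pool.Agent.Results.MP_ebce6b_al.WordBound.result (Φ A : Type*) [CommRing Φ] [Algebra ℚ Φ]
    [NonUnitalRing A] [Module Φ A] [IsScalarTower Φ A A] [SMulCommClass Φ A A]
    (n L : ℕ) (hn : 1 ≤ n) (x : Fin L → A) (T : Finset (Fin L)) (c : A)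
    (hc : ∀ i ∈ T, x i = c) (h : n ^ 2 ≤ L + T.card) :
    (List.ofFn fun i => (x i : Unitization Φ A)).prod ∈
      Submodule.span Φ (Set.range fun a : A => (a : Unitization Φ A) ^ n) :=
  transfer Φ A hn _ fun S f hS hf =>
    core S.toNonUnitalSubsemiring f hf _ (fun k => hS (x k)) T c
      (fun i hi => by rw [hc i hi]) h
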